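import Mathlib

/-!
# The conjecture of Gross and Deligne for motives of abelian type: definitions
-/

namespace Pool.Agent.Q28.GD

/-- `x ∼ y`: the quotient of the nonzero complex numbers `x`, `y` is algebraic. -/
def Sim (x y : ℂ) : Prop := x ≠ 0 ∧ y ≠ 0 ∧ IsAlgebraic ℚ (x / y)

variable {d : ℕ} [NeZero d]

/-- `d p(λ) = ∑_a ε(a) ⟨λ a⟩` for all units `λ` modulo `d`; `⟨x⟩` is the representative in
`{0, …, d - 1}`. -/
def IsEps (p : (ZMod d)ˣ → ℤ) (ε : ZMod d → ℚ) : Prop :=
  ∀ l : (ZMod d)ˣ, (d : ℚ) * p l = ∑ a : ZMod d, ε a * ((l * a : ZMod d).val : ℚ)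

/-- The product of the numbers `Γ(1 - a/d) ^ ε(a λ⁻¹)`, `0 < a < d`. -/
noncomputable def gammaProd (ε : ZMod d → ℚ) (l : (ZMod d)ˣ) : ℝ :=
  ∏ a : ZMod d, if a = 0 then 1 else
    Real.Gamma (1 - (a.val : ℝ) / d) ^ ((ε (a * (l⁻¹ : (ZMod d)ˣ)) : ℚ) : ℝ)

/-- Rational Hodge structures with multiplication by the abelian field `F` of conductor `d`, of rank
one over `F`, together with their periods. -/
structure Periods (d : ℕ) where
  /-- the Hodge structures -/
  T : Type
  /-- the weight -/
  weight : T → ℕ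
  /-- the Hodge numbers `p(λ)`: the line belonging to `λ` is in `H^{p, m - p}`, `m` the weight -/
  hodge : T → (ZMod d)ˣ → ℤ
  /-- the period `P_λ` (a representative in the complex numbers) -/
  period : T → (ZMod d)ˣ → ℂ

/-- The data for the abelian field `F` of conductor `d`, the fixed field in `ℚ(μ_d)` of the
subgroup `Δ` of `(ℤ/d)ˣ`. -/
structure Data (d : ℕ) (Δ : Subgroup (ZMod d)ˣ) where
  /-- the admissible triples `(H, F, ι)` for smooth projective varieties `X` over the algebraic
  numbers, `H ⊆ H^m(X)`, such that the motive of `X` (for absolute Hodge cycles, or in the sense of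
  André) is of abelian type, that is, in the tensor category generated by abelian varieties -/
  triple : Periods d
  /-- the motives of abelian type with multiplication by `F`, of rank one over `F` -/
  mot : Periods d
  /-- the tensor product over `F` -/
  tensor : mot.T → mot.T → mot.T
  /-- the unit motive `1 ⊗ F` -/
  unit : mot.T
  /-- the Tate motive `ℚ(-1) ⊗ F` -/
  tate : mot.T
  /-- `M = h^1(A)`, `A` an abelian variety of dimension `[F : ℚ] / 2` with multiplication by `F` -/
  AV : mot.T → Prop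

variable {Δ : Subgroup (ZMod d)ˣ}

/-- The function `φ` on `(ℤ/d)ˣ` is defined on `Hom(F, ℂ) = (ℤ/d)ˣ / Δ`, and `φ(λ) + φ(-λ) = m`. -/
def IsHodge (Δ : Subgroup (ZMod d)ˣ) (φ : (ZMod d)ˣ → ℤ) (m : ℤ) : Prop :=
  (∀ g ∈ Δ, ∀ l, φ (g * l) = φ l) ∧ ∀ l, φ l + φ (-l) = m

/-- Known facts.
* `hodge`, `pos`: Hodge numbers of subspaces of `H^m(X)`.
* `sub`: a Hodge substructure of `H^m(X)`, `X` of abelian type, is the realization of a motive
  (Deligne: Hodge classes on abelian varieties are absolute Hodge; André: they are motivated).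
* `full`: two such motives with the same Hodge numbers are isomorphic, compatibly with `F` (the
  Hodge structures are isomorphic; Deligne, André), so their periods agree up to algebraic numbers.
* `tensor_hodge`, `tensor_period`, `unit`, `tate`: elementary.
* `cm`: there are abelian varieties over the algebraic numbers for all CM types of `F`.
* `eps`, `koblitz_ogus`: existence of `ε`, and the theorem of Koblitz and Ogus.
* `anderson`: the conjecture for `h^1` of abelian varieties with complex multiplication by `F`. -/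
structure Facts (D : Data d Δ) : Prop where
  hodge : ∀ t : D.triple.T, IsHodge Δ (D.triple.hodge t) (D.triple.weight t)
  pos : ∀ (t : D.triple.T) (l : (ZMod d)ˣ), 0 ≤ D.triple.hodge t l
  sub : ∀ t : D.triple.T, ∃ M : D.mot.T, D.mot.hodge M = D.triple.hodge t ∧
    ∀ l, Sim (D.triple.period t l) (D.mot.period M l)
  full : ∀ M N : D.mot.T, D.mot.hodge M = D.mot.hodge N →
    ∀ l, Sim (D.mot.period M l) (D.mot.period N l)
  tensor_hodge : ∀ (M N : D.mot.T) (l : (ZMod d)ˣ),
    D.mot.hodge (D.tensor M N) l = D.mot.hodge M l + D.mot.hodge N l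
  tensor_period : ∀ (M N : D.mot.T) (l : (ZMod d)ˣ),
    Sim (D.mot.period (D.tensor M N) l) (D.mot.period M l * D.mot.period N l)
  unit : ∀ l, D.mot.hodge D.unit l = 0 ∧ Sim (D.mot.period D.unit l) 1
  tate : ∀ l, D.mot.hodge D.tate l = 1 ∧ Sim (D.mot.period D.tate l) (Real.pi : ℂ)
  cm : ∀ φ : (ZMod d)ˣ → ℤ, (∀ l, φ l = 0 ∨ φ l = 1) → IsHodge Δ φ 1 →
    ∃ A, D.AV A ∧ D.mot.hodge A = φ
  eps : ∀ (φ : (ZMod d)ˣ → ℤ) (m : ℤ), IsHodge Δ φ m → ∃ ε, IsEps φ ε
  koblitz_ogus : ∀ ε : ZMod d → ℚ, IsEps (fun _ : (ZMod d)ˣ => 0) ε →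
    ∀ l, IsAlgebraic ℚ (gammaProd ε l)
  anderson : ∀ A, D.AV A → ∀ ε, IsEps (D.mot.hodge A) ε →
    ∀ l, Sim (D.mot.period A l) (gammaProd ε l)

end Pool.Agent.Q28.GD
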