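import Pool.Agent.Q28.GD.Defs

/-!
# The conjecture of Gross and Deligne for motives of abelian type
-/

namespace Pool.Agent.Q28.GD

section Sim

lemma Sim.refl {x : ℂ} (hx : x ≠ 0) : Sim x x :=
  ⟨hx, hx, by rw [div_self hx]; exact isAlgebraic_one⟩

lemma Sim.symm {x y : ℂ} (h : Sim x y) : Sim y x :=
  ⟨h.2.1, h.1, by rw [← inv_div]; exact h.2.2.inv⟩

lemma Sim.trans {x y z : ℂ} (h : Sim x y) (h' : Sim y z) : Sim x z :=
  ⟨h.1, h'.2.1, by
    have : x / z = x / y * (y / z) := by
      have := h.2.1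
      field_simp
    rw [this]; exact h.2.2.mul h'.2.2⟩

lemma Sim.mul {x y x' y' : ℂ} (h : Sim x y) (h' : Sim x' y') : Sim (x * x') (y * y') :=
  ⟨mul_ne_zero h.1 h'.1, mul_ne_zero h.2.1 h'.2.1, by
    rw [mul_div_mul_comm]; exact h.2.2.mul h'.2.2⟩

end Sim

variable {d : ℕ} [NeZero d]

section Gamma

lemma factor_pos (a : ZMod d) : 0 < Real.Gamma (1 - (a.val : ℝ) / d) := by
  apply Real.Gamma_pos_of_pos
  have h1 : (a.val : ℝ) < d := by exact_mod_cast ZMod.val_lt a
  have h2 : (0 : ℝ) < d := by exact_mod_cast Nat.pos_of_ne_zero (NeZero.ne d)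
  have h3 : (a.val : ℝ) / d < 1 := (div_lt_one h2).2 h1
  linarith

lemma gammaProd_pos (ε : ZMod d → ℚ) (l : (ZMod d)ˣ) : 0 < gammaProd ε l := by
  unfold gammaProd
  refine Finset.prod_pos fun a _ => ?_
  split_ifs
  · exact one_pos
  · exact Real.rpow_pos_of_pos (factor_pos a) _

lemma gammaProd_add (ε ε' : ZMod d → ℚ) (l : (ZMod d)ˣ) :
    gammaProd (fun a => ε a + ε' a) l = gammaProd ε l * gammaProd ε' l := by
  unfold gammaProd
  rw [← Finset.prod_mul_distrib]
  refine Finset.prod_congr rfl fun a _ => ?_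
  split_ifs
  · simp
  · rw [← Real.rpow_add (factor_pos a)]
    push_cast
    rfl

lemma gammaProd_zero (l : (ZMod d)ˣ) : gammaProd (fun _ => (0 : ℚ)) l = 1 := by
  unfold gammaProd
  simp

lemma IsEps.add {p q : (ZMod d)ˣ → ℤ} {ε ε' : ZMod d → ℚ} (h : IsEps p ε) (h' : IsEps q ε') :
    IsEps (fun l => p l + q l) (fun a => ε a + ε' a) := by
  intro l
  have h1 := h l
  have h2 := h' l
  push_cast
  rw [mul_add, h1, h2, ← Finset.sum_add_distrib]
  exact Finset.sum_congr rfl fun a _ => by ring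

lemma IsEps.sub {p : (ZMod d)ˣ → ℤ} {ε ε' : ZMod d → ℚ} (h : IsEps p ε) (h' : IsEps p ε') :
    IsEps (fun _ : (ZMod d)ˣ => 0) (fun a => ε a - ε' a) := by
  intro l
  have h1 := h l
  have h2 := h' l
  simp only [Int.cast_zero, mul_zero, sub_mul, Finset.sum_sub_distrib]
  rw [← h1, ← h2, sub_self]

lemma isEps_zero : IsEps (fun _ : (ZMod d)ˣ => 0) (fun _ => (0 : ℚ)) := by
  intro l; simp

end Gamma

section Reflection

/-- the function `ε` of the Tate motive -/
def epsTate (a : ZMod d) : ℚ := (if a = 1 then 1 else 0) + (if a = -1 then 1 else 0)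

lemma isEps_tate (hd : 1 < d) : IsEps (fun _ : (ZMod d)ˣ => 1) (epsTate (d := d)) := by
  have : Fact (1 < d) := ⟨hd⟩
  intro l
  have h0 : (l : ZMod d) ≠ 0 := l.ne_zero
  have h1 : ((-(l : ZMod d)).val : ℚ) = d - (l : ZMod d).val := by
    rw [ZMod.neg_val, if_neg h0, Nat.cast_sub (ZMod.val_lt _).le]
  simp only [epsTate, add_mul, ite_mul, one_mul, zero_mul, Finset.sum_add_distrib,
    Finset.sum_ite_eq', Finset.mem_univ, if_true, mul_one, mul_neg]
  rw [h1]
  push_cast
  ring

lemma gammaProd_ite (b : ZMod d) (hb : IsUnit b) (hd : 1 < d) (l : (ZMod d)ˣ) :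
    gammaProd (fun a => if a = b then (1 : ℚ) else 0) l =
      Real.Gamma (1 - ((b * l : ZMod d).val : ℝ) / d) := by
  have : Fact (1 < d) := ⟨hd⟩
  unfold gammaProd
  have hbl : b * (l : ZMod d) ≠ 0 := (hb.mul l.isUnit).ne_zero
  rw [Finset.prod_eq_single (b * (l : ZMod d))]
  · rw [if_neg hbl]
    have : b * (l : ZMod d) * ((l⁻¹ : (ZMod d)ˣ) : ZMod d) = b := by
      rw [mul_assoc, Units.mul_inv, mul_one]
    rw [this]
    beta_reduce
    rw [if_pos rfl]
    simp
  · intro a _ ha
    by_cases h1 : a = 0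
    · rw [if_pos h1]
    · rw [if_neg h1]
      have h2 : ¬ (a * ((l⁻¹ : (ZMod d)ˣ) : ZMod d) = b) := by
        intro h2
        apply ha
        rw [← h2, mul_assoc, Units.inv_mul, mul_one]
      beta_reduce
      rw [if_neg h2]
      simp
  · intro h; exact absurd (Finset.mem_univ _) h

lemma gammaProd_tate (hd : 1 < d) (l : (ZMod d)ˣ) :
    Sim (Real.pi : ℂ) (gammaProd (epsTate (d := d)) l) := by
  have : Fact (1 < d) := ⟨hd⟩
  have h0 : (l : ZMod d) ≠ 0 := l.ne_zero
  have e : gammaProd (epsTate (d := d)) l =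
      Real.Gamma (1 - ((l : ZMod d).val : ℝ) / d) * Real.Gamma (((l : ZMod d).val : ℝ) / d) := by
    have := gammaProd_add (fun a : ZMod d => if a = 1 then (1 : ℚ) else 0)
      (fun a : ZMod d => if a = -1 then (1 : ℚ) else 0) l
    have e0 : gammaProd (epsTate (d := d)) l = gammaProd (fun a : ZMod d =>
      (if a = 1 then (1 : ℚ) else 0) + if a = -1 then (1 : ℚ) else 0) l := rfl
    rw [e0, this, gammaProd_ite 1 isUnit_one hd, gammaProd_ite (-1) isUnit_one.neg hd]
    rw [one_mul, neg_one_mul, ZMod.neg_val, if_neg h0, Nat.cast_sub (ZMod.val_lt _).le]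
    have hd0 : (d : ℝ) ≠ 0 := by exact_mod_cast NeZero.ne d
    congr 2
    field_simp
    ring
  have hs : Real.sin (Real.pi * (((l : ZMod d).val : ℝ) / d)) ≠ 0 := by
    have h1 : (0 : ℝ) < ((l : ZMod d).val : ℝ) / d := by
      have : 0 < (l : ZMod d).val := Nat.pos_of_ne_zero (by rwa [Ne, ZMod.val_eq_zero])
      have hd1 : (0 : ℝ) < d := by exact_mod_cast Nat.pos_of_ne_zero (NeZero.ne d)
      exact div_pos (by exact_mod_cast this) hd1
    have h2 : ((l : ZMod d).val : ℝ) / d < 1 := by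
      have hd1 : (0 : ℝ) < d := by exact_mod_cast Nat.pos_of_ne_zero (NeZero.ne d)
      exact (div_lt_one hd1).2 (by exact_mod_cast ZMod.val_lt _)
    apply ne_of_gt
    apply Real.sin_pos_of_pos_of_lt_pi
    · exact mul_pos Real.pi_pos h1
    · calc _ < Real.pi * 1 := mul_lt_mul_of_pos_left h2 Real.pi_pos
        _ = _ := mul_one _
  have hG := Real.Gamma_mul_Gamma_one_sub (((l : ZMod d).val : ℝ) / d)
  rw [mul_comm, ← e] at hG
  refine ⟨by exact_mod_cast Real.pi_ne_zero, by exact_mod_cast (gammaProd_pos _ _).ne', ?_⟩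
  rw [hG]
  have e2 : ((Real.pi : ℂ) / ((Real.pi / Real.sin (Real.pi * (((l : ZMod d).val : ℝ) / d)) : ℝ) : ℂ))
      = ((Real.sin (Real.pi * (((l : ZMod d).val : ℝ) / d)) : ℝ) : ℂ) := by
    push_cast
    have : (Real.pi : ℂ) ≠ 0 := by exact_mod_cast Real.pi_ne_zero
    rw [div_div_eq_mul_div, mul_div_assoc, mul_comm, div_mul_cancel₀ _ this]
  rw [e2]
  have h3 := Real.isAlgebraic_sin_rat_mul_pi (((l : ZMod d).val : ℚ) / d)
  have h4 : Real.sin (Real.pi * (((l : ZMod d).val : ℝ) / d)) =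
      Real.sin ((((l : ZMod d).val : ℚ) / d : ℚ) * Real.pi) := by
    push_cast
    rw [mul_comm]
  rw [h4]
  have h5 : IsAlgebraic ℚ (Real.sin ((((l : ZMod d).val : ℚ) / d : ℚ) * Real.pi)) :=
    h3.extendScalars (Int.cast_injective)
  exact h5.algebraMap

end Reflection

section Main

variable {Δ : Subgroup (ZMod d)ˣ} {D : Data d Δ}

/-- the conjecture holds for some motive with the given Hodge numbers -/
def Good (D : Data d Δ) (q : (ZMod d)ˣ → ℤ) : Prop :=
  ∃ (M : D.mot.T) (ε : ZMod d → ℚ), D.mot.hodge M = q ∧ IsEps q ε ∧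
    ∀ l, Sim (D.mot.period M l) (gammaProd ε l)

lemma good_zero (hD : Facts D) : Good D (fun _ => 0) :=
  ⟨D.unit, fun _ => 0, funext fun l => (hD.unit l).1, isEps_zero, fun l => by
    rw [gammaProd_zero]
    simpa using (hD.unit l).2⟩

lemma good_one (hD : Facts D) (hd : 1 < d) : Good D (fun _ => 1) :=
  ⟨D.tate, epsTate, funext fun l => (hD.tate l).1, isEps_tate hd, fun l =>
    (hD.tate l).2.trans (gammaProd_tate hd l)⟩

lemma Good.add (hD : Facts D) {p q : (ZMod d)ˣ → ℤ} (hp : Good D p) (hq : Good D q) :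
    Good D (fun l => p l + q l) := by
  obtain ⟨M, ε, h1, h2, h3⟩ := hp
  obtain ⟨N, ε', k1, k2, k3⟩ := hq
  refine ⟨D.tensor M N, fun a => ε a + ε' a, funext fun l => ?_, h2.add k2, fun l => ?_⟩
  · rw [hD.tensor_hodge, h1, k1]
  · rw [gammaProd_add]
    push_cast
    exact (hD.tensor_period M N l).trans ((h3 l).mul (k3 l))

lemma good_cm (hD : Facts D) {φ : (ZMod d)ˣ → ℤ} (h01 : ∀ l, φ l = 0 ∨ φ l = 1)
    (h : IsHodge Δ φ 1) : Good D φ := by
  obtain ⟨A, hA, e⟩ := hD.cm φ h01 h
  obtain ⟨ε, hε⟩ := hD.eps φ 1 h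
  exact ⟨A, ε, e, hε, hD.anderson A hA ε (e ▸ hε)⟩

lemma good_sum (hD : Facts D) {m : ℕ} (φ : Fin m → (ZMod d)ˣ → ℤ) (h : ∀ j, Good D (φ j)) :
    Good D (fun l => ∑ j, φ j l) := by
  induction m with
  | zero => simpa using good_zero hD
  | succ m ih =>
    have := (h 0).add hD (ih (fun j => φ j.succ) (fun j => h _))
    simpa [Fin.sum_univ_succ] using this

omit [NeZero d] in
/-- the transversal for the complex conjugation: a CM type of the field `F`, if it is not real -/
lemma exists_type (hΔ : (-1 : (ZMod d)ˣ) ∉ Δ) : ∃ S : Set (ZMod d)ˣ,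
    (∀ g ∈ Δ, ∀ l, g * l ∈ S ↔ l ∈ S) ∧ ∀ l, -l ∈ S ↔ l ∉ S := by
  classical
  let r : Setoid (ZMod d)ˣ :=
    { r := fun a b => a * b⁻¹ ∈ Δ ∨ -(a * b⁻¹) ∈ Δ
      iseqv := by
        refine ⟨fun a => Or.inl (by simp [Δ.one_mem]), fun {a b} h => ?_, fun {a b c} h h' => ?_⟩
        · rcases h with h | h
          · left
            have := Δ.inv_mem h
            rwa [mul_inv_rev, inv_inv] at this
          · right
            have := Δ.inv_mem h
            rwa [inv_neg, mul_inv_rev, inv_inv] at this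
        · rcases h with h | h <;> rcases h' with h' | h'
          · left
            have := Δ.mul_mem h h'
            rwa [mul_assoc, inv_mul_cancel_left] at this
          · right
            have := Δ.mul_mem h h'
            rwa [mul_neg, mul_assoc, inv_mul_cancel_left] at this
          · right
            have := Δ.mul_mem h h'
            rwa [neg_mul, mul_assoc, inv_mul_cancel_left] at this
          · left
            have := Δ.mul_mem h h'
            rwa [neg_mul_neg, mul_assoc, inv_mul_cancel_left] at this }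
  let o : (ZMod d)ˣ → (ZMod d)ˣ := fun l => (Quotient.mk r l).out
  have ho : ∀ l, l * (o l)⁻¹ ∈ Δ ∨ -(l * (o l)⁻¹) ∈ Δ := by
    intro l
    have h1 : r (o l) l := Quotient.exact (Quotient.out_eq (Quotient.mk r l))
    exact r.symm h1
  have hg : ∀ g ∈ Δ, ∀ l, o (g * l) = o l := by
    intro g hg l
    have : Quotient.mk r (g * l) = Quotient.mk r l := Quotient.sound (Or.inl (by simpa using hg))
    simp only [o, this]
  have hn : ∀ l, o (-l) = o l := by
    intro l
    have : Quotient.mk r (-l) = Quotient.mk r l := Quotient.sound (Or.inr (by simp [Δ.one_mem]))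
    simp only [o, this]
  have hcon : ∀ x, x ∈ Δ → -x ∉ Δ := by
    intro x hx hx'
    apply hΔ
    have := Δ.mul_mem hx' (Δ.inv_mem hx)
    simpa using this
  refine ⟨{l | l * (o l)⁻¹ ∈ Δ}, fun g hg' l => ?_, fun l => ?_⟩
  · change g * l * (o (g * l))⁻¹ ∈ Δ ↔ l * (o l)⁻¹ ∈ Δ
    rw [hg g hg', mul_assoc]
    exact ⟨fun h => by
      have := Δ.mul_mem (Δ.inv_mem hg') h
      rwa [inv_mul_cancel_left] at this, fun h => Δ.mul_mem hg' h⟩
  · change -l * (o (-l))⁻¹ ∈ Δ ↔ ¬ l * (o l)⁻¹ ∈ Δ
    rw [hn, neg_mul]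
    constructor
    · intro h h'
      exact hcon _ h' h
    · intro h
      rcases ho l with h' | h'
      · exact absurd h' h
      · exact h'

/-- all Hodge numbers are sums of CM types, or constant -/
lemma good_hodge (hD : Facts D) (hd : 1 < d) {p : (ZMod d)ˣ → ℤ} {m : ℕ} (hp : IsHodge Δ p m)
    (h0 : ∀ l, 0 ≤ p l) : Good D p := by
  classical
  by_cases hΔ : (-1 : (ZMod d)ˣ) ∈ Δ
  · -- the real case
    have h1 : ∀ l, p (-l) = p l := fun l => by
      have := hp.1 (-1) hΔ l
      rwa [neg_one_mul] at this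
    have h2 : ∀ l, 2 * p l = m := fun l => by
      have := hp.2 l
      rw [h1] at this
      linarith
    have h3 : p = fun l => ∑ _j : Fin (p 1).toNat, (1 : ℤ) := by
      funext l
      have a := h2 l
      have b := h2 1
      have c := h0 1
      simp only [Finset.sum_const, Finset.card_univ, Fintype.card_fin, nsmul_eq_mul, mul_one]
      rw [Int.toNat_of_nonneg c]
      linarith
    rw [h3]
    exact good_sum hD _ fun _ => good_one hD hd
  · obtain ⟨S, hS1, hS2⟩ := exists_type hΔ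
    have hle : ∀ l, p l ≤ m := fun l => by
      have := hp.2 l
      have := h0 (-l)
      linarith
    let φ : Fin m → (ZMod d)ˣ → ℤ := fun j l =>
      if l ∈ S then (if ((j : ℕ) : ℤ) < p l then 1 else 0)
        else (if ((j : ℕ) : ℤ) < p (-l) then 0 else 1)
    have hcount : ∀ k : ℤ, 0 ≤ k → k ≤ m →
        ∑ j : Fin m, (if ((j : ℕ) : ℤ) < k then (1 : ℤ) else 0) = k := by
      intro k hk hkm
      rw [Fin.sum_univ_eq_sum_range (fun j => if ((j : ℕ) : ℤ) < k then (1 : ℤ) else 0) m,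
        ← Finset.sum_filter, Finset.sum_const, nsmul_eq_mul, mul_one]
      have : (Finset.range m).filter (fun j : ℕ => (j : ℤ) < k) = Finset.range k.toNat := by
        ext j
        simp only [Finset.mem_filter, Finset.mem_range]
        omega
      rw [this, Finset.card_range, Int.toNat_of_nonneg hk]
    have hsum : p = fun l => ∑ j, φ j l := by
      funext l
      by_cases hl : l ∈ S
      · simp only [φ, if_pos hl]
        rw [hcount _ (h0 l) (hle l)]
      · simp only [φ, if_neg hl]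
        have h1 : ∀ j : Fin m, (if ((j : ℕ) : ℤ) < p (-l) then (0 : ℤ) else 1) =
            1 - (if ((j : ℕ) : ℤ) < p (-l) then (1 : ℤ) else 0) := by
          intro j; split_ifs <;> simp
        simp_rw [h1]
        rw [Finset.sum_sub_distrib, hcount _ (h0 (-l)) (hle (-l))]
        have := hp.2 l
        simp only [Finset.sum_const, Finset.card_univ, Fintype.card_fin, nsmul_eq_mul, mul_one]
        linarith
    rw [hsum]
    refine good_sum hD _ fun j => good_cm hD (fun l => ?_) ⟨fun g hg l => ?_, fun l => ?_⟩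
    · simp only [φ]
      split_ifs <;> simp
    · have e1 : p (g * l) = p l := hp.1 g hg l
      have e2 : p (-(g * l)) = p (-l) := by rw [← mul_neg]; exact hp.1 g hg _
      simp only [φ, hS1 g hg l, e1, e2]
    · by_cases hl : l ∈ S
      · have hl' : -l ∉ S := fun h => (hS2 l).1 h hl
        simp only [φ, if_pos hl, if_neg hl', neg_neg]
        split_ifs <;> simp
      · have hl' : -l ∈ S := (hS2 l).2 hl
        simp only [φ, if_neg hl, if_pos hl']
        split_ifs <;> simp

/-- main theorem -/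
theorem final (hD : Facts D) (hd : 1 < d) (t : D.triple.T) (ε : ZMod d → ℚ)
    (hε : IsEps (D.triple.hodge t) ε) (l : (ZMod d)ˣ) :
    Sim (D.triple.period t l) (gammaProd ε l) := by
  obtain ⟨N, ε', h1, h2, h3⟩ := good_hodge hD hd (hD.hodge t) (hD.pos t)
  obtain ⟨M, k1, k2⟩ := hD.sub t
  have h4 : Sim (gammaProd ε' l : ℂ) (gammaProd ε l) := by
    have e : gammaProd ε' l = gammaProd (fun a => ε' a - ε a) l * gammaProd ε l := by
      rw [← gammaProd_add]
      simp
    have h5 := hD.koblitz_ogus _ (h2.sub hε) l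
    have h6 : ((gammaProd ε l : ℝ) : ℂ) ≠ 0 := by exact_mod_cast (gammaProd_pos ε l).ne'
    refine ⟨by exact_mod_cast (gammaProd_pos ε' l).ne', h6, ?_⟩
    rw [e]
    push_cast
    rw [mul_div_cancel_right₀ _ h6]
    exact h5.algebraMap
  exact (k2 l).trans (((hD.full M N (k1.trans h1.symm) l).trans (h3 l)).trans h4)

end Main

end Pool.Agent.Q28.GD
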